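import Pool.Agent.Y940.Gil.Pts

set_option autoImplicit false
open Finset Filter Topology

/-! # MP_c4ccc0_co: the values of Gilbert's guessing game are asymptotically periodic in `log₂ n`

The sequence `V(n) - log₂ n` has no limit; its set of limit points is a closed interval of length
between `6.6·10⁻¹¹` and `1.3·10⁻⁹`; `V(⌊2^(k+t)⌋) - log₂ ⌊2^(k+t)⌋` converges to `Φ(t)` as
`k → ∞` for all but countably many real `t`, where `Φ` has period `1` and is known up to
`3·10⁻¹⁰`, with an oscillation of larger amplitude; the limits along `n = m 2^k - 1` exist for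
every `m`; and there is an explicit formula for `V(n)` with this precision for all `n ≥ 1024`.
-/

namespace Pool.Agent.Results.MP_c4ccc0_co.PeriodicLaw

/-- The matrix `A_n` of the problem: the payoff to Blue when Red guesses `g` and Blue hides at `h`,
where `V m` is the value of the game on `m` consecutive integers. -/
noncomputable def payoff (V : ℕ → ℝ) (n g h : ℕ) : ℝ :=
  if h = g then 1 else if h < g then 1 + V (g - 1) else 1 + V (n - g)

/-- Mixed strategies on `{1, …, n}`: nonnegative weights whose sum over `{1, …, n}` is `1`. -/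
def MixedStrategy (n : ℕ) : Set (ℕ → ℝ) := {p | (∀ i, 0 ≤ p i) ∧ ∑ i ∈ Icc 1 n, p i = 1}

/-- `v` is the value of the `n × n` matrix game `A` (rows `g` chosen by Red, who minimises; columns
`h` chosen by Blue, who maximises): Red can hold Blue to at most `v`, Blue can secure at least `v`. -/
def IsGameValue (A : ℕ → ℕ → ℝ) (n : ℕ) (v : ℝ) : Prop :=
  (∃ p ∈ MixedStrategy n, ∀ h ∈ Icc 1 n, ∑ g ∈ Icc 1 n, p g * A g h ≤ v) ∧
  (∃ r ∈ MixedStrategy n, ∀ g ∈ Icc 1 n, v ≤ ∑ h ∈ Icc 1 n, r h * A g h)

/-- `V` is the sequence of values of the guessing game: `V 0 = 0`, and for `n ≥ 1` the number `V n`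
is the value of the matrix game `A_n` built from the earlier values. -/
def IsValueSequence (V : ℕ → ℝ) : Prop :=
  V 0 = 0 ∧ ∀ n, 1 ≤ n → IsGameValue (payoff V n) n (V n)

/-- the sequence of the problem -/
noncomputable def u (V : ℕ → ℝ) (n : ℕ) : ℝ := V n - Real.logb 2 n

/-- the constant `c₁` -/
noncomputable def c₁ : ℝ := -33796824689 / 10 ^ 11

/-- the amplitude of the oscillation -/
noncomputable def A₀ : ℝ := 230 / 10 ^ 12

/-- the error, smaller than the amplitude -/
noncomputable def ε₀ : ℝ := 207 / 10 ^ 12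

/-- `θ(y) = log y + c₁` -/
noncomputable def θ (y : ℝ) : ℝ := Real.log y + c₁

/-- the non-oscillating part of the explicit formula for `V(n) log 2`, `y = n + 1` -/
noncomputable def Z (y : ℝ) : ℝ :=
  θ y + (θ y / 2 + 8664339757 / 25000000000) / y
    + (-θ y ^ 2 / 12 + 6565849 / 25000000 * θ y + 162859943 / 1000000000) / y ^ 2
    + (-(72331 / 400000) * θ y ^ 2 + 130563 / 1000000 * θ y + 869963 / 10000000) / y ^ 3
    + (θ y ^ 4 / 120 + 17 / 2000 * θ y ^ 3 - 13437 / 50000 * θ y ^ 2 + 5271 / 100000 * θ y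
        + 5377 / 100000) / y ^ 4

lemma c₁_eq : c₁ = Pool.Agent.Helper155.Gil.c1 := rfl
lemma A₀_eq : A₀ = Pool.Agent.Helper155.Gil.A0 := by
  unfold A₀ Pool.Agent.Helper155.Gil.A0; norm_num
lemma ε₀_eq : ε₀ = Pool.Agent.Helper155.Gil.ep0 := rfl

open Pool.Agent.Helper155.Gil Pool.Agent.Y940.Gil in
theorem result :
    (∃! V : ℕ → ℝ, IsValueSequence V) ∧
    ∀ V : ℕ → ℝ, IsValueSequence V →
      -- there is no limit
      (¬ ∃ c : ℝ, Tendsto (u V) atTop (𝓝 c)) ∧
      -- the limit points form a closed interval, its length and position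
      ((∀ x : ℝ, MapClusterPt x atTop (u V) ↔ liminf (u V) atTop ≤ x ∧ x ≤ limsup (u V) atTop) ∧
        66 / 10 ^ 12 < limsup (u V) atTop - liminf (u V) atTop ∧
        limsup (u V) atTop - liminf (u V) atTop < 13 / 10 ^ 10 ∧
        -(48758512 / 10 ^ 8) < liminf (u V) atTop ∧
        limsup (u V) atTop < -(48758510 / 10 ^ 8)) ∧
      -- asymptotic periodicity
      (∃ Φ : ℝ → ℝ, (∀ t, Φ (t + 1) = Φ t) ∧ Monotone (fun t => Φ t + t) ∧
        (∀ t, |Real.log 2 * Φ t - (c₁ - A₀ * Real.cos (2 * Real.pi * t))| ≤ ε₀) ∧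
        {t : ℝ | ¬ Tendsto (fun k : ℕ => u V ⌊(2 : ℝ) ^ ((k : ℝ) + t)⌋₊) atTop
          (𝓝 (Φ t))}.Countable) ∧
      -- the limits along `m 2^k - 1`
      (∀ m : ℕ, 1 ≤ m → ∃ G : ℝ, Tendsto (fun k : ℕ => u V (m * 2 ^ k - 1)) atTop (𝓝 G) ∧
        |Real.log 2 * G - (c₁ - A₀ * Real.cos (2 * Real.pi * Real.logb 2 m))| ≤ ε₀) ∧
      -- explicit formula
      (∀ n : ℕ, 1024 ≤ n → |Real.log 2 * V n -
        (Z ((n : ℝ) + 1) - A₀ * Real.cos (2 * Real.pi * Real.logb 2 ((n : ℝ) + 1)))| ≤ ε₀) := by
  have hiff : ∀ V : ℕ → ℝ, IsValueSequence V ↔ IsGilbert V := fun _ => Iff.rfl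
  have hlog : 0 < Real.log 2 := Real.log_pos (by norm_num)
  refine ⟨MMain.exists_unique_gilbert, fun V hV' => ?_⟩
  have hV : IsGilbert V := (hiff V).1 hV'
  have hu : u V = uu V := rfl
  refine ⟨MMain.no_limit V hV, ?_, ?_, ?_, ?_⟩
  · rw [hu]
    refine ⟨points hV, (width hV).1, (width hV).2, ?_, ?_⟩
    · have h4 := liminf_lower hV
      refine lt_of_lt_of_le ?_ h4
      have d9' := Real.log_two_lt_d9
      have d9 := Real.log_two_gt_d9
      rw [lt_div_iff₀ hlog]
      unfold c1 A0 ep0
      nlinarith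
    · have h4 := limsup_upper hV
      refine lt_of_le_of_lt h4 ?_
      have d9' := Real.log_two_lt_d9
      have d9 := Real.log_two_gt_d9
      rw [div_lt_iff₀ hlog]
      unfold c1 A0 ep0
      nlinarith
  · refine ⟨fun t => FF V t - t, fun t => ?_, ?_, fun t => ?_, ?_⟩
    · dsimp only
      rw [FF_shift hV]
      ring
    · have : (fun t => FF V t - t + t) = FF V := by funext t; ring
      rw [this]
      exact FF_mono hV
    · rw [c₁_eq, A₀_eq, ε₀_eq]
      have := FF_bounds hV t
      have e : Real.log 2 * (FF V t - t) - (c1 - A0 * Real.cos (2 * Real.pi * t)) =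
          Real.log 2 * (FF V t - t) - c1 + A0 * Real.cos (2 * Real.pi * t) := by ring
      rw [e]
      exact this
    · refine Set.Countable.mono (fun t ht => ?_) (countable_bad hV)
      rw [Set.mem_setOf_eq] at ht ⊢
      intro hc
      refine ht ?_
      have h1 := (log_nn t).sub (Real.tendsto_log_nat_add_one_sub_log.comp (nn_tendsto t))
      rw [sub_zero] at h1
      have h2 := h1.div_const (Real.log 2)
      rw [mul_div_assoc, div_self hlog.ne', mul_one] at h2
      refine (hc.sub h2).congr fun k => ?_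
      simp only [Function.comp]
      unfold us u Real.logb
      change V (nn t k) - k - _ = V (nn t k) - Real.log (nn t k) / Real.log 2
      field_simp
      ring
  · intro m hm
    obtain ⟨G, hG, hb⟩ := limit_exists hV hm
    have hm0 : (m : ℝ) ≠ 0 := by
      have : (0 : ℝ) < m := by exact_mod_cast hm
      exact this.ne'
    refine ⟨G - Real.logb 2 m, ?_, ?_⟩
    · have h2 := (Real.tendsto_log_nat_add_one_sub_log.comp (ix_tendsto hm)).div_const (Real.log 2)
      rw [zero_div] at h2
      have h3 := (hG.sub_const (Real.logb 2 m)).add h2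
      rw [add_zero] at h3
      refine h3.congr fun k => ?_
      simp only [Function.comp]
      have e : Real.log ((ix m k : ℝ) + 1) = Real.log m + k * Real.log 2 := by
        rw [ix_add hm, Real.log_mul hm0 (by positivity), Real.log_pow]
      rw [e]
      unfold u Real.logb
      change V (ix m k) - k - _ + _ = V (ix m k) - Real.log (ix m k) / Real.log 2
      field_simp
      ring
    · rw [c₁_eq, A₀_eq, ε₀_eq]
      have e : Real.log 2 * (G - Real.logb 2 m) -
          (c1 - A0 * Real.cos (2 * Real.pi * Real.logb 2 m)) =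
          Real.log 2 * G - Real.log m - c1 + A0 * qq m := by
        have e1 : Real.log 2 * Real.logb 2 m = Real.log m := by
          unfold Real.logb; field_simp
        have e2 : qq m = Real.cos (2 * Real.pi * Real.logb 2 m) := rfl
        rw [← e2, mul_sub, e1]
        ring
      rw [e]
      exact hb
  · intro n hn
    obtain ⟨h1, h2⟩ := MMain.two_sided V hV n hn
    rw [A₀_eq, ε₀_eq]
    have hZ : Z ((n : ℝ) + 1) = zz ((n : ℝ) + 1) := by
      unfold Z zz P1 P2 P3 P4 θ th
      rw [c₁_eq]
    have hq : Real.cos (2 * Real.pi * Real.logb 2 ((n : ℝ) + 1)) = qq ((n : ℝ) + 1) := rfl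
    rw [hZ, hq]
    have hm : mm ((n : ℝ) + 1) ≤ ep0 := by
      unfold mm
      have hy : (1 : ℝ) ≤ (n : ℝ) + 1 := by
        have : (0 : ℝ) ≤ n := Nat.cast_nonneg n
        linarith
      have hl : 0 ≤ Real.log ((n : ℝ) + 1) := Real.log_nonneg hy
      have h3 : 0 ≤ kap * (th ((n : ℝ) + 1) + 1) / ((n : ℝ) + 1) := by
        unfold kap th c1
        refine div_nonneg (mul_nonneg (by norm_num) (by linarith)) (by linarith)
      linarith
    unfold Wf at h1 h2
    rw [abs_le]
    constructor <;> linarith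

end Pool.Agent.Results.MP_c4ccc0_co.PeriodicLaw
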